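import Pool.Agent.H.MP_f3079c_lc.Defs
import Pool.Agent.H.MP_f3079c_lc.Process

/-!
# The binary unbiased black-box complexity of OneMax is linear

We prove `B(n) ≥ n / 82` for every `n`, where `B(n)` is the binary unbiased black-box complexity
of `OneMax_n` (`Pool.Agent.H.MP_f3079c_lc.Defs`).

Idea of the proof.  In `±1` coordinates, given the numbers of flips among the coordinates where
the two parents `x, y` agree and where they differ, the expectation of the offspring is
`α x + β y` with `|α| + |β| ≤ 1`, and the noise is sub-Gaussian against every fixed point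
(`good_choice`).  Unrolling the ancestry of the optimum backwards in time writes it as a sum of
noises, and the remaining part at time `s` is a combination of the points queried before `s` with
weights that are monotone in `s`.  This gives a deterministic inequality `n ≤ R_T` whenever the
optimum is among the first `T` queries (`RR_of_exists`), with `E[R_T] ≤ 41 T` (`EE_cost`).
-/

namespace Pool.Agent.Results.MP_f3079c_lc.LinearLowerBound

open Pool.Agent.H.MP_f3079c_lc Finset MeasureTheory
open scoped ENNReal

lemma eq_of_isMaximiser {n : ℕ} {z x : Cube n} (h : IsMaximiser (OM z) x) : x = z := by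
  have h1 := h z
  unfold OM at h1
  have h2 : (univ.filter fun i => z i = z i).card ≤ (univ.filter fun i => x i = z i).card := by
    exact_mod_cast h1
  have h3 : (univ.filter fun i => x i = z i) = univ := by
    apply Finset.eq_univ_of_card
    apply le_antisymm (Finset.card_le_univ _)
    simpa using h2
  funext i
  have : i ∈ (univ.filter fun i => x i = z i) := by rw [h3]; exact mem_univ i
  simpa using this

/-- the transition laws of an algorithm with a fixed seed -/
noncomputable def trans {n : ℕ} (A : UnbiasedAlgorithm n 2) (s : A.Seed) (f : Cube n → ℝ) (t : ℕ)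
    (x : Fin t → Cube n) : PMF (Cube n) := (A.choice s t fun i => f (x i)).law x

lemma run_eq {n : ℕ} (A : UnbiasedAlgorithm n 2) (s : A.Seed) (f : Cube n → ℝ) (t : ℕ) :
    A.run s f t = runL (trans A s f) t := by
  induction t with
  | zero => rfl
  | succ t ih => rw [UnbiasedAlgorithm.run, runL, ih]; rfl

/-- The probability that the optimum has not been found within `t` queries. -/
lemma tail_bound {n : ℕ} (hn : 0 < n) (A : UnbiasedAlgorithm n 2) (s : A.Seed) (z : Cube n)
    (t : ℕ) : ENNReal.ofReal (1 - 41 * t / n)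
      ≤ (A.run s (OM z) t).toOuterMeasure {x | ∀ i, ¬ IsMaximiser (OM z) (x i)} := by
  classical
  have hgood : ∀ t (x : Fin t → Cube n), GoodLaw (trans A s (OM z) t x) x := fun t x =>
    good_choice _ x
  choose κ hκ hmom using hgood
  have hcost := EE_cost (L := trans A s (OM z)) (κ := κ) (fun t x v => hmom t x v) z t
  set p := runL (trans A s (OM z)) t with hp
  set S : Finset (Fin t → Cube n) := univ.filter fun x => ∃ j, x j = z with hS
  have h1 : (n : ℝ) * ∑ x ∈ S, (p x).toReal ≤ 41 * t := by
    refine le_trans ?_ hcost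
    rw [EE, Finset.mul_sum]
    calc ∑ x ∈ S, (n : ℝ) * (p x).toReal ≤ ∑ x ∈ S, (p x).toReal * RR κ z t x := by
          refine Finset.sum_le_sum fun x hx => ?_
          rw [mul_comm]
          exact mul_le_mul_of_nonneg_left
            (RR_of_exists κ z hκ t x (by simpa [hS] using hx)) ENNReal.toReal_nonneg
      _ ≤ ∑ x, (p x).toReal * RR κ z t x :=
          Finset.sum_le_sum_of_subset_of_nonneg (Finset.subset_univ _) fun x _ _ =>
            mul_nonneg ENNReal.toReal_nonneg (RR_nonneg κ z t x)
  have hnr : (0 : ℝ) < n := by exact_mod_cast hn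
  have h2 : ∑ x ∈ S, (p x).toReal ≤ 41 * t / n := by
    rw [le_div_iff₀ hnr, mul_comm]; exact h1
  have h3 : ∑ x ∈ S, (p x).toReal + ∑ x ∈ Sᶜ, (p x).toReal = 1 := by
    rw [Finset.sum_add_sum_compl, pmf_sum_toReal]
  have h4 : ENNReal.ofReal (∑ x ∈ Sᶜ, (p x).toReal)
      ≤ (A.run s (OM z) t).toOuterMeasure {x | ∀ i, ¬ IsMaximiser (OM z) (x i)} := by
    rw [run_eq, ← hp, PMF.toOuterMeasure_apply, tsum_fintype (L := .unconditional _),
      ENNReal.ofReal_sum_of_nonneg fun _ _ => ENNReal.toReal_nonneg]
    calc ∑ x ∈ Sᶜ, ENNReal.ofReal (p x).toReal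
        = ∑ x ∈ Sᶜ, Set.indicator {x | ∀ i, ¬ IsMaximiser (OM z) (x i)} p x := by
          refine Finset.sum_congr rfl fun x hx => ?_
          rw [ENNReal.ofReal_toReal (p.apply_ne_top x), Set.indicator_of_mem]
          intro i hi
          simp only [hS, Finset.mem_compl, Finset.mem_filter, Finset.mem_univ, true_and,
            not_exists] at hx
          exact hx i (eq_of_isMaximiser hi)
      _ ≤ _ := Finset.sum_le_sum_of_subset (Finset.subset_univ _)
  refine le_trans (ENNReal.ofReal_le_ofReal ?_) h4
  linarith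

/-- The expected running time with a fixed seed. -/
lemma seed_bound {n : ℕ} (hn : 0 < n) (A : UnbiasedAlgorithm n 2) (s : A.Seed) (z : Cube n) :
    (n : ℝ≥0∞) / 82
      ≤ ∑' t : ℕ, (A.run s (OM z) t).toOuterMeasure {x | ∀ i, ¬ IsMaximiser (OM z) (x i)} := by
  set m : ℕ := n / 41 with hm
  have hnr : (0 : ℝ) < n := by exact_mod_cast hn
  have h1 : ∀ t ∈ range (m + 1), (0 : ℝ) ≤ 1 - 41 * t / n := by
    intro t ht
    have ht' : t ≤ n / 41 := by rw [← hm]; exact Nat.lt_succ_iff.1 (mem_range.1 ht)
    have h2 : 41 * t ≤ n := by omega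
    have h3 : (41 : ℝ) * t ≤ n := by exact_mod_cast h2
    rw [sub_nonneg, div_le_one hnr]
    exact h3
  have hsum : ∑ t ∈ range (m + 1), (1 - 41 * (t : ℝ) / n)
      = (m + 1) * (1 - 41 * (m : ℝ) / (2 * n)) := by
    have : ∀ k : ℕ, ∑ t ∈ range (k + 1), (1 - 41 * (t : ℝ) / n)
        = (k + 1) * (1 - 41 * (k : ℝ) / (2 * n)) := by
      intro k
      induction k with
      | zero => simp
      | succ k ih =>
        rw [Finset.sum_range_succ, ih]
        push_cast
        field_simp
        ring
    exact this m
  have hlow : (n : ℝ) / 82 ≤ ∑ t ∈ range (m + 1), (1 - 41 * (t : ℝ) / n) := by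
    rw [hsum]
    have a1 : (41 : ℝ) * m ≤ n := by
      have : 41 * m ≤ n := by rw [hm]; omega
      exact_mod_cast this
    have a2 : (n : ℝ) ≤ 41 * (m + 1) := by
      have : n ≤ 41 * (m + 1) := by rw [hm]; omega
      exact_mod_cast this
    have a3 : 41 * (m : ℝ) / (2 * n) ≤ 1 / 2 := by
      rw [div_le_div_iff₀ (by positivity) (by norm_num)]
      linarith
    have a4 : (0 : ℝ) ≤ (m : ℝ) + 1 := by positivity
    nlinarith
  calc (n : ℝ≥0∞) / 82 = ENNReal.ofReal ((n : ℝ) / 82) := by
        rw [ENNReal.ofReal_div_of_pos (by norm_num)]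
        simp
    _ ≤ ENNReal.ofReal (∑ t ∈ range (m + 1), (1 - 41 * (t : ℝ) / n)) :=
        ENNReal.ofReal_le_ofReal hlow
    _ = ∑ t ∈ range (m + 1), ENNReal.ofReal (1 - 41 * (t : ℝ) / n) :=
        ENNReal.ofReal_sum_of_nonneg h1
    _ ≤ ∑ t ∈ range (m + 1),
        (A.run s (OM z) t).toOuterMeasure {x | ∀ i, ¬ IsMaximiser (OM z) (x i)} :=
        Finset.sum_le_sum fun t _ => tail_bound hn A s z t
    _ ≤ _ := ENNReal.sum_le_tsum _

/-- **Linear lower bound**: the binary unbiased black-box complexity of `OneMax_n` is at least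
`n / 82`, for every `n`.  In particular it is `Ω(n)`. -/
theorem result (n : ℕ) : (n : ℝ≥0∞) / 82 ≤ B n := by
  rcases Nat.eq_zero_or_pos n with rfl | hn
  · simp
  · unfold B unbiasedComplexity
    refine le_iInf fun A => ?_
    let z : Cube n := fun _ => true
    refine le_trans ?_ (le_iSup₂ (f := fun f (_ : f ∈ OneMax n) => A.expectedTime f)
      (OM z) ⟨z, rfl⟩)
    let _ := A.measurableSpace
    have _ := A.isProbabilityMeasure
    calc (n : ℝ≥0∞) / 82 = ∫⁻ _ : A.Seed, (n : ℝ≥0∞) / 82 ∂A.seedLaw := by
          rw [lintegral_const, measure_univ, mul_one]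
      _ ≤ A.expectedTime (OM z) := lintegral_mono fun s => seed_bound hn A s z

end Pool.Agent.Results.MP_f3079c_lc.LinearLowerBound
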